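import Mathlib

/-!
# Project DN (MP_2b6189_al): almost all dimensions

Pure arithmetic on top of `primeOnce`.  Let `G : ℕ → Prop` be such that for every prime `p`, `p ∤ m`, `¬ G (p m)` implies `Ghost p m` (`primeOnce`: `G n` = every
`CentreData` with `Z.n = n` has a Tannakian subset).  Then
(1) for every `ε > 0` there is `z` such that for all `x` at most `ε x` integers `n ≤ x` have a divisor `d` with `¬ G d` which is divisible by a prime `> z`;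
(2) the set of `n` with `¬ G n` has density zero;
(3) for every `ε > 0` there is `z` such that all but a proportion `ε` of the integers without prime factors `≤ z` have `G d` for all divisors `d > 1`; so a positive proportion of all `n` has this property.
PROOF.  Let `d ∣ n`, `¬ G d`, and `q > z` the largest prime divisor of `d`.  If `q ^ 2 ∤ d` then `d = q m`, and the `A` of `Ghost q m` satisfies `AA q A`, `q A ∣ d ∣ n`.  So the number of the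
`n ≤ x` is at most `x * ∑_{q > z} (1 / q^2 + (1 / q) ∑_{AA q A, A ≤ x} 1 / A)`.  The inner sum: RES for `A ≤ q ^ L`, RAN for `A > q ^ L`, `L = 10 (Nat.log 2 q + 1)`; the sum over `q`: SUM.  (2): numbers
without prime factors `> z` are few (`Nat.smoothNumbersUpTo`).  (3): ROU and `z ^ (-2/5)` against `z ^ (-1/3)`.
-/

set_option autoImplicit false

namespace Pool.Agent.Helper94.DN

/-- the numbers of a ghost -/
def Ghost (p m : ℕ) : Prop :=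
  ∃ N A : ℕ, 3 ≤ N ∧ N ∣ p - 1 ∧ A ∣ m ∧ (p + 1) ^ 2 ≤ 2 * A ∧
    ((p : ℤ) ∣ A - N ∨ (p : ℤ) ∣ A + N)

open Classical in
/-- **DN MODULE RES.**
PROOF.  `A = q * (A / q) + A % q ≥ q * (A / q)`, and `1 ≤ A / q ≤ Y`.  For a fixed residue class modulo `q` the map `A ↦ A / q` is injective, so the sum of `1 / A` over `A ∈ [q, Y]` in one residue class is at most
`∑_{j = 1}^{Y} 1 / (q j) ≤ (1 + log Y) / q` (`harmonic_le_one_add_log`).  The condition means that `A` lies in one of at most `2 * d(q - 1)` residue classes, and `d(k) ≤ 2 √k` (`k = a b`, `min a b ≤ √k`; `Nat.card_divisors_le...` or by hand: the divisors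
`≤ √k` and their complementary divisors).  Total: `2 * 2 √q * (1 + log Y) / q = 4 (1 + log Y) / √q`. -/
def StRES : Prop := ∀ q Y : ℕ, 2 ≤ q → 1 ≤ Y →
  ∑ A ∈ (Finset.Icc q Y).filter (fun A : ℕ => ∃ N : ℕ, N ∣ q - 1 ∧
    ((q : ℤ) ∣ (A : ℤ) - N ∨ (q : ℤ) ∣ (A : ℤ) + N)), (1 : ℝ) / A ≤ 4 * (1 + Real.log Y) / √q

/-- **DN MODULE RAN.**
PROOF.  For `A ∈ S` let `Ω = A.primeFactorsList.length` (`ArithmeticFunction.cardFactors`); `q ^ L ≤ A ≤ q ^ Ω` (each prime factor is `< q`), so `L ≤ Ω` and `1 / A ≤ (2/3)^L * ((3/2)^Ω / A)`.  `f n = (3/2)^(Ω n) / n` (`f 0 = 0`) is completely multiplicative, `f l = 3 / (2 l) < 1`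
for primes `l`, so `∑_{A ∈ S} f A ≤ ∑_{q-smooth A} f A = ∏_{l < q prime} (1 - 3 / (2 l))⁻¹` (`EulerProduct.summable_and_hasSum_smoothNumbers_prod_primesBelow_geometric`), and `1 - 3 / (2 l) ≥ (1 - 1 / l)^2` for `l ≥ 2`, so the product is at most
`∏_{k = 2}^{q - 1} (1 - 1 / k)^(-2) = (q - 1)^2 ≤ q^2`. -/
def StRAN : Prop := ∀ (q L : ℕ) (S : Finset ℕ), 2 ≤ q →
  (∀ A ∈ S, A ≠ 0 ∧ (∀ l : ℕ, l.Prime → l ∣ A → l < q) ∧ q ^ L ≤ A) →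
  ∑ A ∈ S, (1 : ℝ) / A ≤ (q : ℝ) ^ 2 * (2 / 3) ^ L

open Classical in
/-- **DN MODULE ROU.**  Numbers without small prime factors.
PROOF.  `δ = ∏_{l ≤ z prime} (1 - 1 / l)`.  (a) `δ ^ 3 * z ≥ (2/9)^3`: the primes `5 ≤ l ≤ z` are of the form `6 j - 1`, `6 j + 1` with `1 ≤ j ≤ z`; all factors are in `(0, 1)`, so `δ ≥ (1/2) (2/3) ∏_{j = 1}^z (1 - 1/(6j-1)) (1 - 1/(6j+1))`, and `(1 - 1/(6j-1)) (1 - 1/(6j+1)) = (36 j^2 - 12 j) / (36 j^2 - 1) ≥ 1 - 1/(3j)`,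
`(1 - 1/(3j))^3 ≥ 1 - 1/j` (Bernoulli), so `(∏_{j=1}^z (1 - 1/(3j)))^3 ≥ (2/3)^3 ∏_{j=2}^z (1 - 1/j) = (2/3)^3 / z`.
(b) With `P = ∏_{l ≤ z} l`: `n` has no prime factor `≤ z` iff `n` is coprime to `P`; in each interval of length `P` there are `φ(P) = δ P` such `n` (`Nat.filter_coprime_Ico_eq_totient`, `Nat.totient_eq_mul_prod_factors`), so the number is at least `δ P * ⌊x / P⌋ ≥ δ x - P`: take `C = P`. -/
def StROU : Prop := ∀ z : ℕ, 1 ≤ z → ∃ δ C : ℝ, 0 < δ ∧ (2 / 9) ^ 3 ≤ δ ^ 3 * z ∧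
  ∀ x : ℕ, δ * x - C ≤ (((Finset.Icc 1 x).filter fun n => ∀ l : ℕ, l.Prime → l ∣ n → z < l).card : ℝ)

/-- **DN MODULE SUM.**
PROOF.  `L = 10 (Nat.log 2 q + 1)`, `q < 2 ^ (Nat.log 2 q + 1)`, `(2/3)^2 < 1/2`, so `(2/3)^L ≤ 2^(-5 (Nat.log 2 q + 1)) ≤ q^(-5)`, and `q^2 (2/3)^L ≤ q^(-3)`.  `log (q ^ L) = L log q ≤ 10 (Nat.log 2 q + 1) log q ≤ c (1 + log q)^2 ≤ c' q^(1/10)` (`Real.log_le_rpow_div`, `Nat.log 2 q ≤ log q / log 2`).
So the term of `q` is at most `q^(-2) + c'' q^(-3/2 + 1/10) + q^(-4) ≤ K' q^(-7/5)`, and `q^(-7/5) ≤ (5/2) ((q-1)^(-2/5) - q^(-2/5))` for `q ≥ 2` (convexity or the mean value theorem; or compare with the integral), so the sum over `q ∈ (z, x]` telescopes to at most `(5/2) K' z^(-2/5)`. -/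
def StSUM : Prop := ∃ K : ℝ, ∀ z x : ℕ, 1 ≤ z →
  ∑ q ∈ Finset.Ioc z x, (1 / (q : ℝ) ^ 2 + 1 / (q : ℝ) *
    (4 * (1 + Real.log ((q ^ (10 * (Nat.log 2 q + 1)) : ℕ) : ℝ)) / √q +
      (q : ℝ) ^ 2 * (2 / 3) ^ (10 * (Nat.log 2 q + 1)))) ≤ K * (z : ℝ) ^ (-(2 / 5) : ℝ)

open Classical in
/-- the conclusion -/
structure Dens (G : ℕ → Prop) : Prop where
  big : ∀ ε : ℝ, 0 < ε → ∃ z : ℕ, ∀ x : ℕ, (((Finset.Icc 1 x).filter fun n =>
    ∃ d q : ℕ, d ∣ n ∧ q.Prime ∧ z < q ∧ q ∣ d ∧ ¬ G d).card : ℝ) ≤ ε * x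
  one : ∀ ε : ℝ, 0 < ε → ∃ x0 : ℕ, ∀ x : ℕ, x0 ≤ x →
    (((Finset.Icc 1 x).filter fun n => ¬ G n).card : ℝ) ≤ ε * x
  rel : ∀ ε : ℝ, 0 < ε → ∃ z x0 : ℕ, ∀ x : ℕ, x0 ≤ x →
    (((Finset.Icc 1 x).filter fun n => (∀ l : ℕ, l.Prime → l ∣ n → z < l) ∧
      ∃ d : ℕ, d ∣ n ∧ 1 < d ∧ ¬ G d).card : ℝ) ≤
    ε * (((Finset.Icc 1 x).filter fun n => ∀ l : ℕ, l.Prime → l ∣ n → z < l).card : ℝ)
  pos : ∃ c : ℝ, 0 < c ∧ ∃ x0 : ℕ, ∀ x : ℕ, x0 ≤ x →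
    c * x ≤ (((Finset.Icc 1 x).filter fun n => ∀ d : ℕ, d ∣ n → 1 < d → G d).card : ℝ)

/-- **DN MODULE CNT**: assembly. -/
def StCNT : Prop := StRES → StRAN → StROU → StSUM → ∀ G : ℕ → Prop,
  (∀ p m : ℕ, p.Prime → ¬ p ∣ m → ¬ G (p * m) → Ghost p m) → Dens G

end Pool.Agent.Helper94.DN
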