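import Pool.Agent.Helper94.DN.Cnt
import Pool.Agent.Helper98.DN.M_RES
import Pool.Agent.Helper7.DN.M_RAN
import Pool.Agent.Helper36.DN.M_ROU
import Pool.Agent.Helper6.DN.M_SUM
import Pool.Agent.Helper4.PQ0.Once

/-! # Project DN (MP_2b6189_al): almost all dimensions, assembly -/

set_option autoImplicit false

namespace Pool.Agent.Helper94.DN

open Pool.Agent.Helper94.YF Pool.Agent.Helper94.YG

/-- Every datum of dimension `n` has a nontrivial Tannakian subcategory. -/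
def Tann (n : ℕ) : Prop := ∀ (I : Type) [Fintype I] [DecidableEq I] (Z : CentreData I), Z.n = n →
  ∃ D : I → Prop, D Z.o ∧ (∃ x, D x ∧ x ≠ Z.o) ∧ (∀ x, D x → D (Z.st x)) ∧
    (∀ x y z, D x → D y → Z.N x y z ≠ 0 → D z) ∧ (∀ x, D x → Z.th x = 1) ∧
    ∀ x y, D x → D y → (Z.n : ℂ) * Z.rho Sm x y = (Z.d x : ℂ) * Z.d y

theorem tann_ghost (p m : ℕ) (hp : p.Prime) (hpm : ¬ p ∣ m) (h : ¬ Tann (p * m)) : Ghost p m := by
  unfold Tann at h
  push Not at h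
  obtain ⟨I, _, _, Z, hn, hT⟩ := h
  obtain ⟨-, N, A, h1, h2, h3, h4, h5, -⟩ := Pool.Agent.Helper4.PQ0.primeOnce I Z p m hp hn hpm (by
    rintro ⟨D, hD⟩
    obtain ⟨x, y, hx, hy, hxy⟩ := hT D hD.unit hD.nontriv hD.dual hD.fus hD.twist
    exact hxy (hD.symm x y hx hy))
  exact ⟨N, A, h1, h2, h3, h4, h5⟩

theorem densT : Dens Tann :=
  hCNT Pool.Agent.Helper98.DN.hRES Pool.Agent.Helper7.DN.hRAN Pool.Agent.Helper36.DN.hROU
    Pool.Agent.Helper6.DN.hSUM Tann tann_ghost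

theorem countT : ∃ K : ℝ, 0 ≤ K ∧ ∀ z x : ℕ, 1 ≤ z →
    ((Sz Tann z x).card : ℝ) ≤ K * (z : ℝ) ^ (-(2 / 5) : ℝ) * x := by
  obtain ⟨K, hK0, hK⟩ := count Pool.Agent.Helper98.DN.hRES Pool.Agent.Helper7.DN.hRAN
    Pool.Agent.Helper6.DN.hSUM
  exact ⟨K, hK0, fun z x hz => hK Tann tann_ghost z x hz⟩

end Pool.Agent.Helper94.DN
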