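import Pool.Agent.Helper94.DN.St

/-! # Project DN (MP_2b6189_al), module CNT: assembly -/

set_option autoImplicit false

namespace Pool.Agent.Helper94.DN

open Finset

/-- the bound for the exponent -/
def LL (q : ℕ) : ℕ := 10 * (Nat.log 2 q + 1)

open Classical in
/-- the possible numbers `A` for the prime `q` -/
noncomputable def SA (q x : ℕ) : Finset ℕ := (Icc q x).filter fun A : ℕ =>
  (∀ l : ℕ, l.Prime → l ∣ A → l < q) ∧
    ∃ N : ℕ, N ∣ q - 1 ∧ ((q : ℤ) ∣ (A : ℤ) - N ∨ (q : ℤ) ∣ (A : ℤ) + N)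

theorem inner (hRES : StRES) (hRAN : StRAN) (q x : ℕ) (hq : 2 ≤ q) :
    ∑ A ∈ SA q x, (1 : ℝ) / A ≤ 4 * (1 + Real.log ((q ^ LL q : ℕ) : ℝ)) / √q +
      (q : ℝ) ^ 2 * (2 / 3) ^ LL q := by
  classical
  rw [← Finset.sum_filter_add_sum_filter_not (SA q x) (fun A => A ≤ q ^ LL q)]
  refine add_le_add ?_ ?_
  · refine le_trans ?_ (hRES q (q ^ LL q) hq (Nat.one_le_pow _ _ (by omega)))
    refine Finset.sum_le_sum_of_subset_of_nonneg ?_ fun A _ _ => by positivity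
    intro A hA
    obtain ⟨h1, h2⟩ := Finset.mem_filter.1 hA
    obtain ⟨h3, -, h4⟩ := Finset.mem_filter.1 h1
    exact Finset.mem_filter.2 ⟨Finset.mem_Icc.2 ⟨(Finset.mem_Icc.1 h3).1, h2⟩, h4⟩
  · refine hRAN q (LL q) _ hq ?_
    intro A hA
    obtain ⟨h1, h2⟩ := Finset.mem_filter.1 hA
    obtain ⟨h3, h4, -⟩ := Finset.mem_filter.1 h1
    have h5 := (Finset.mem_Icc.1 h3).1
    exact ⟨by omega, h4, by omega⟩

/-- the largest prime divisor -/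
theorem top_prime (d q0 : ℕ) (hd : d ≠ 0) (h0 : q0.Prime) (h1 : q0 ∣ d) :
    ∃ q : ℕ, q.Prime ∧ q ∣ d ∧ q0 ≤ q ∧ ∀ l : ℕ, l.Prime → l ∣ d → l ≤ q := by
  have hne : d.primeFactors.Nonempty := ⟨q0, Nat.mem_primeFactors.2 ⟨h0, h1, hd⟩⟩
  refine ⟨d.primeFactors.max' hne, ?_, ?_, ?_, ?_⟩
  · exact Nat.prime_of_mem_primeFactors (Finset.max'_mem _ hne)
  · exact Nat.dvd_of_mem_primeFactors (Finset.max'_mem _ hne)
  · exact Finset.le_max' _ _ (Nat.mem_primeFactors.2 ⟨h0, h1, hd⟩)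
  · intro l hl hl2
    exact Finset.le_max' _ _ (Nat.mem_primeFactors.2 ⟨hl, hl2, hd⟩)

theorem card_mult (x k : ℕ) : ((((Icc 1 x).filter fun n => k ∣ n).card : ℕ) : ℝ) ≤ (x : ℝ) / k := by
  have h1 : (Icc 1 x).filter (fun n => k ∣ n) = (Ioc 0 x).filter (fun n => k ∣ n) := by
    ext n
    simp only [Finset.mem_filter, Finset.mem_Icc, Finset.mem_Ioc]
    constructor
    · rintro ⟨⟨h1, h2⟩, h3⟩
      exact ⟨⟨by omega, h2⟩, h3⟩
    · rintro ⟨⟨h1, h2⟩, h3⟩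
      exact ⟨⟨by omega, h2⟩, h3⟩
  rw [h1, Nat.Ioc_filter_dvd_card_eq_div]
  exact Nat.cast_div_le

open Classical in
/-- the set of the first claim -/
noncomputable def Sz (G : ℕ → Prop) (z x : ℕ) : Finset ℕ := (Icc 1 x).filter fun n =>
  ∃ d q : ℕ, d ∣ n ∧ q.Prime ∧ z < q ∧ q ∣ d ∧ ¬ G d

theorem cover (G : ℕ → Prop)
    (hG : ∀ p m : ℕ, p.Prime → ¬ p ∣ m → ¬ G (p * m) → Ghost p m) (z x n : ℕ)
    (hn : n ∈ Sz G z x) : ∃ q ∈ Ioc z x, 2 ≤ q ∧ (q ^ 2 ∣ n ∨ ∃ A ∈ SA q x, q * A ∣ n) := by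
  classical
  obtain ⟨h1, d, q0, hd, hq0, hz, hqd, hGd⟩ := Finset.mem_filter.1 hn
  obtain ⟨h2, h3⟩ := Finset.mem_Icc.1 h1
  have hn0 : n ≠ 0 := by omega
  have hd0 : d ≠ 0 := by
    rintro rfl
    exact hn0 (zero_dvd_iff.1 hd)
  obtain ⟨q, hq, hqd', hle, htop⟩ := top_prime d q0 hd0 hq0 hqd
  have hqn : q ∣ n := hqd'.trans hd
  have hqx : q ≤ x := (Nat.le_of_dvd (by omega) hqn).trans h3
  refine ⟨q, Finset.mem_Ioc.2 ⟨by omega, hqx⟩, hq.two_le, ?_⟩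
  obtain ⟨m, rfl⟩ := hqd'
  by_cases hqm : q ∣ m
  · left
    obtain ⟨k, rfl⟩ := hqm
    exact (Dvd.intro k (by ring)).trans hd
  · right
    obtain ⟨N, A, h4, h5, h6, h7, h8⟩ := hG q m hq hqm hGd
    have hAm : A ∣ q * m := h6.trans (dvd_mul_left _ _)
    have hqA : q * A ∣ n := (mul_dvd_mul_left q h6).trans hd
    have hA0 : A ≠ 0 := by
      rintro rfl
      simp at h7
    refine ⟨A, Finset.mem_filter.2 ⟨Finset.mem_Icc.2 ⟨by nlinarith, ?_⟩, ?_, N, h5, h8⟩, hqA⟩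
    · exact (Nat.le_of_dvd (by omega) (hAm.trans hd)).trans h3
    · intro l hl hlA
      have h9 := htop l hl (hlA.trans hAm)
      have h10 : l ≠ q := by
        rintro rfl
        exact hqm (hlA.trans h6)
      omega

/-- **The count.** -/
theorem count (hRES : StRES) (hRAN : StRAN) (hSUM : StSUM) : ∃ K : ℝ, 0 ≤ K ∧ ∀ G : ℕ → Prop,
    (∀ p m : ℕ, p.Prime → ¬ p ∣ m → ¬ G (p * m) → Ghost p m) → ∀ z x : ℕ, 1 ≤ z →
    ((Sz G z x).card : ℝ) ≤ K * (z : ℝ) ^ (-(2 / 5) : ℝ) * x := by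
  classical
  obtain ⟨K, hK⟩ := hSUM
  refine ⟨K, ?_, ?_⟩
  · have h := hK 1 1 le_rfl
    simpa using h
  intro G hG z x hz
  have h1 : Sz G z x ⊆ ((Ioc z x).filter fun q => 2 ≤ q).biUnion fun q =>
      ((Icc 1 x).filter fun n => q ^ 2 ∣ n) ∪
        (SA q x).biUnion fun A => (Icc 1 x).filter fun n => q * A ∣ n := by
    intro n hn
    obtain ⟨q, hq, hq2, h⟩ := cover G hG z x n hn
    have hnx : n ∈ Icc 1 x := (Finset.mem_filter.1 hn).1
    refine Finset.mem_biUnion.2 ⟨q, Finset.mem_filter.2 ⟨hq, hq2⟩, ?_⟩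
    rcases h with h | ⟨A, hA, h⟩
    · exact Finset.mem_union_left _ (Finset.mem_filter.2 ⟨hnx, h⟩)
    · exact Finset.mem_union_right _ (Finset.mem_biUnion.2 ⟨A, hA, Finset.mem_filter.2 ⟨hnx, h⟩⟩)
  have h2 : ((Sz G z x).card : ℝ) ≤ ∑ q ∈ (Ioc z x).filter (fun q => 2 ≤ q),
      ((x : ℝ) / ((q ^ 2 : ℕ) : ℝ) + ∑ A ∈ SA q x, (x : ℝ) / ((q * A : ℕ) : ℝ)) := by
    refine le_trans (Nat.cast_le.2 (Finset.card_le_card h1)) ?_
    refine le_trans (Nat.cast_le.2 Finset.card_biUnion_le) ?_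
    push_cast
    refine Finset.sum_le_sum fun q _ => ?_
    refine le_trans (Nat.cast_le.2 (Finset.card_union_le _ _)) ?_
    push_cast
    refine add_le_add ?_ ?_
    · have := card_mult x (q ^ 2)
      push_cast at this
      exact this
    · refine le_trans (Nat.cast_le.2 Finset.card_biUnion_le) ?_
      push_cast
      refine Finset.sum_le_sum fun A _ => ?_
      have := card_mult x (q * A)
      push_cast at this
      exact this
  refine h2.trans ?_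
  have h3 : ∀ q ∈ (Ioc z x).filter (fun q => 2 ≤ q),
      ((x : ℝ) / ((q ^ 2 : ℕ) : ℝ) + ∑ A ∈ SA q x, (x : ℝ) / ((q * A : ℕ) : ℝ)) ≤
      (x : ℝ) * (1 / (q : ℝ) ^ 2 + 1 / (q : ℝ) *
        (4 * (1 + Real.log ((q ^ LL q : ℕ) : ℝ)) / √q + (q : ℝ) ^ 2 * (2 / 3) ^ LL q)) := by
    intro q hq
    have hq2 := (Finset.mem_filter.1 hq).2
    have h4 : ∑ A ∈ SA q x, (x : ℝ) / ((q * A : ℕ) : ℝ) =
        (x : ℝ) * (1 / (q : ℝ) * ∑ A ∈ SA q x, (1 : ℝ) / A) := by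
      rw [Finset.mul_sum, Finset.mul_sum]
      refine Finset.sum_congr rfl fun A _ => ?_
      push_cast
      rw [one_div_mul_one_div, div_eq_mul_one_div]
    rw [h4]
    push_cast
    rw [mul_add]
    refine add_le_add (le_of_eq (by ring)) ?_
    refine mul_le_mul_of_nonneg_left ?_ (Nat.cast_nonneg x)
    refine mul_le_mul_of_nonneg_left ?_ (by positivity)
    have := inner hRES hRAN q x hq2
    push_cast at this
    exact this
  refine (Finset.sum_le_sum h3).trans ?_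
  rw [← Finset.mul_sum, mul_comm (K * _) (x : ℝ)]
  refine mul_le_mul_of_nonneg_left ?_ (Nat.cast_nonneg x)
  refine le_trans ?_ (hK z x hz)
  refine Finset.sum_le_sum_of_subset_of_nonneg (Finset.filter_subset _ _) fun q hq _ => ?_
  have hq1 : 1 ≤ q := by
    have := (Finset.mem_Ioc.1 hq).1
    omega
  have h5 : 0 ≤ Real.log ((q ^ (10 * (Nat.log 2 q + 1)) : ℕ) : ℝ) := Real.log_natCast_nonneg _
  positivity

open Classical in
/-- the choice of `z` -/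
theorem rate (hROU : StROU) (K : ℝ) (_hK : 0 ≤ K) (η : ℝ) (hη : 0 < η) :
    ∃ z : ℕ, 1 ≤ z ∧ ∃ δ C : ℝ, 0 < δ ∧ K * (z : ℝ) ^ (-(2 / 5) : ℝ) ≤ η * δ ∧ ∀ x : ℕ,
      δ * x - C ≤ (((Icc 1 x).filter fun n => ∀ l : ℕ, l.Prime → l ∣ n → z < l).card : ℝ) := by
  have hlim2 : Filter.Tendsto (fun z : ℕ => (z : ℝ) ^ (1 / 15 : ℝ)) Filter.atTop Filter.atTop :=
    (tendsto_rpow_atTop (by norm_num : (0 : ℝ) < 1 / 15)).comp tendsto_natCast_atTop_atTop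
  obtain ⟨z, hz1, hz2⟩ := ((hlim2.eventually_ge_atTop (9 * K / (2 * η))).and
    (Filter.eventually_ge_atTop 1)).exists
  obtain ⟨δ, C, hδ, hδ3, hC⟩ := hROU z hz2
  refine ⟨z, hz2, δ, C, hδ, ?_, hC⟩
  have hzp : (0 : ℝ) < z := by exact_mod_cast hz2
  have e1 : ((z : ℝ) ^ (-(1 / 3) : ℝ)) ^ 3 * z = 1 := by
    rw [← Real.rpow_natCast, ← Real.rpow_mul hzp.le]
    have : (-(1 / 3) : ℝ) * ((3 : ℕ) : ℝ) = -1 := by norm_num
    rw [this, Real.rpow_neg_one, inv_mul_cancel₀ hzp.ne']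
  have e2 : 2 / 9 * (z : ℝ) ^ (-(1 / 3) : ℝ) ≤ δ := by
    have h1 : (2 / 9 * (z : ℝ) ^ (-(1 / 3) : ℝ)) ^ 3 ≤ δ ^ 3 := by
      rw [mul_pow]
      have h2 : ((2 : ℝ) / 9) ^ 3 * ((z : ℝ) ^ (-(1 / 3) : ℝ)) ^ 3 * z ≤ δ ^ 3 * z := by
        rw [mul_assoc, e1, mul_one]
        exact hδ3
      exact le_of_mul_le_mul_right h2 hzp
    exact le_of_pow_le_pow_left₀ (by norm_num) hδ.le h1
  have e3 : (z : ℝ) ^ (-(2 / 5) : ℝ) * (z : ℝ) ^ (1 / 15 : ℝ) = (z : ℝ) ^ (-(1 / 3) : ℝ) := by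
    rw [← Real.rpow_add hzp]
    norm_num
  have e4 : 0 ≤ (z : ℝ) ^ (-(2 / 5) : ℝ) := Real.rpow_nonneg hzp.le _
  have hz3 : 9 * K ≤ 2 * η * (z : ℝ) ^ (1 / 15 : ℝ) := by
    have h1 : 9 * K / (2 * η) ≤ (z : ℝ) ^ (1 / 15 : ℝ) := hz1
    rw [div_le_iff₀ (by positivity)] at h1
    linarith
  have e5 : 9 * (K * (z : ℝ) ^ (-(2 / 5) : ℝ)) ≤ 2 * η * (z : ℝ) ^ (-(1 / 3) : ℝ) := by
    rw [← e3]
    nlinarith
  have e6 : η * (2 / 9 * (z : ℝ) ^ (-(1 / 3) : ℝ)) ≤ η * δ := mul_le_mul_of_nonneg_left e2 hη.le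
  linarith

/-- a number without small prime factors and with a bad divisor -/
theorem rough_bad (G : ℕ → Prop) (z x n : ℕ) (hn : n ∈ Icc 1 x)
    (h3 : ∀ l : ℕ, l.Prime → l ∣ n → z < l) (h4 : ∃ d : ℕ, d ∣ n ∧ 1 < d ∧ ¬ G d) :
    n ∈ Sz G z x := by
  classical
  obtain ⟨d, hd, hd1, hGd⟩ := h4
  obtain ⟨q, hq, hqd⟩ := Nat.exists_prime_and_dvd (by omega : d ≠ 1)
  exact Finset.mem_filter.2 ⟨hn, d, q, hd, hq, h3 q hq (hqd.trans hd), hqd, hGd⟩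

theorem hCNT : StCNT := by
  classical
  intro hRES hRAN hROU hSUM G hG
  obtain ⟨K, hK0, hK⟩ := count hRES hRAN hSUM
  have hlim : Filter.Tendsto (fun z : ℕ => K * (z : ℝ) ^ (-(2 / 5) : ℝ)) Filter.atTop (nhds 0) := by
    have h1 : Filter.Tendsto (fun z : ℕ => (z : ℝ) ^ (-(2 / 5) : ℝ)) Filter.atTop (nhds 0) :=
      (tendsto_rpow_neg_atTop (by norm_num : (0 : ℝ) < 2 / 5)).comp tendsto_natCast_atTop_atTop
    simpa using h1.const_mul K
  have big : ∀ ε : ℝ, 0 < ε → ∃ z : ℕ, 1 ≤ z ∧ ∀ x : ℕ, ((Sz G z x).card : ℝ) ≤ ε * x := by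
    intro ε hε
    obtain ⟨z, hz1, hz2⟩ := ((hlim.eventually_lt_const hε).and
      (Filter.eventually_ge_atTop 1)).exists
    refine ⟨z, hz2, fun x => (hK G hG z x hz2).trans ?_⟩
    exact mul_le_mul_of_nonneg_right hz1.le (Nat.cast_nonneg x)
  refine ⟨?_, ?_, ?_, ?_⟩
  · intro ε hε
    obtain ⟨z, -, hz⟩ := big ε hε
    exact ⟨z, hz⟩
  · intro ε hε
    obtain ⟨z, hz1, hz⟩ := big (ε / 2) (by positivity)
    -- the smooth numbers
    set c : ℕ := 2 ^ (z + 1).primesBelow.card with hc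
    have hx0 : ∃ x0 : ℕ, ∀ x : ℕ, x0 ≤ x → (c : ℝ) * √x ≤ ε / 2 * x := by
      obtain ⟨x0, hx0⟩ := exists_nat_ge ((2 * c / ε) ^ 2)
      refine ⟨x0, fun x hx => ?_⟩
      have h1 : (2 * c / ε) ^ 2 ≤ (x : ℝ) := hx0.trans (by exact_mod_cast hx)
      have h2 : 2 * c / ε ≤ √x := Real.le_sqrt_of_sq_le h1
      have h3 : (2 * c : ℝ) ≤ ε * √x := by
        rw [div_le_iff₀ hε] at h2
        linarith
      have h4 : √(x : ℝ) * √x = x := Real.mul_self_sqrt (Nat.cast_nonneg x)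
      have h5 : 0 ≤ √(x : ℝ) := Real.sqrt_nonneg _
      nlinarith
    obtain ⟨x0, hx0⟩ := hx0
    refine ⟨x0, fun x hx => ?_⟩
    have hsub : (Icc 1 x).filter (fun n => ¬ G n) ⊆ Sz G z x ∪ Nat.smoothNumbersUpTo x (z + 1) := by
      intro n hn
      obtain ⟨h1, h2⟩ := Finset.mem_filter.1 hn
      obtain ⟨h3, h4⟩ := Finset.mem_Icc.1 h1
      by_cases h5 : ∃ q : ℕ, q.Prime ∧ z < q ∧ q ∣ n
      · obtain ⟨q, hq, hzq, hqn⟩ := h5
        exact Finset.mem_union_left _ (Finset.mem_filter.2 ⟨h1, n, q, dvd_rfl, hq, hzq, hqn, h2⟩)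
      · refine Finset.mem_union_right _ (Nat.mem_smoothNumbersUpTo.2 ⟨h4, ?_⟩)
        rw [Nat.mem_smoothNumbers']
        intro q hq hqn
        by_contra h6
        exact h5 ⟨q, hq, by omega, hqn⟩
    have h1 : (((Icc 1 x).filter fun n => ¬ G n).card : ℝ) ≤
        ((Sz G z x).card : ℝ) + ((Nat.smoothNumbersUpTo x (z + 1)).card : ℝ) := by
      exact_mod_cast (Finset.card_le_card hsub).trans (Finset.card_union_le _ _)
    have h2 : ((Nat.smoothNumbersUpTo x (z + 1)).card : ℝ) ≤ (c : ℝ) * √x := by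
      have h3 : ((Nat.smoothNumbersUpTo x (z + 1)).card : ℝ) ≤ ((c * x.sqrt : ℕ) : ℝ) := by
        exact_mod_cast Nat.smoothNumbersUpTo_card_le x (z + 1)
      refine h3.trans ?_
      push_cast
      refine mul_le_mul_of_nonneg_left ?_ (Nat.cast_nonneg c)
      exact Real.nat_sqrt_le_real_sqrt
    have h3 := hz x
    have h4 := hx0 x hx
    linarith
  · -- numbers without small prime factors
    intro ε hε
    obtain ⟨z, hz, δ, C, hδ, hr, hC⟩ := rate hROU K hK0 (ε / 2) (by positivity)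
    obtain ⟨x0, hx0⟩ := exists_nat_ge (2 * C / δ)
    refine ⟨z, x0, fun x hx => ?_⟩
    have h1 : (Icc 1 x).filter (fun n => (∀ l : ℕ, l.Prime → l ∣ n → z < l) ∧
        ∃ d : ℕ, d ∣ n ∧ 1 < d ∧ ¬ G d) ⊆ Sz G z x := by
      intro n hn
      obtain ⟨h2, h3, h4⟩ := Finset.mem_filter.1 hn
      exact rough_bad G z x n h2 h3 h4
    have h2 : (((Icc 1 x).filter fun n => (∀ l : ℕ, l.Prime → l ∣ n → z < l) ∧
        ∃ d : ℕ, d ∣ n ∧ 1 < d ∧ ¬ G d).card : ℝ) ≤ ((Sz G z x).card : ℝ) :=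
      Nat.cast_le.2 (Finset.card_le_card h1)
    have h3 := hC x
    have h4 := hK G hG z x hz
    have h5 : K * (z : ℝ) ^ (-(2 / 5) : ℝ) * x ≤ ε / 2 * δ * x :=
      mul_le_mul_of_nonneg_right hr (Nat.cast_nonneg x)
    have h6 : 2 * C ≤ δ * x := by
      have h7 : 2 * C / δ ≤ x := hx0.trans (by exact_mod_cast hx)
      rw [div_le_iff₀ hδ] at h7
      linarith
    have h8 : ε * (δ * x - C) ≤
        ε * (((Icc 1 x).filter fun n => ∀ l : ℕ, l.Prime → l ∣ n → z < l).card : ℝ) :=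
      mul_le_mul_of_nonneg_left h3 hε.le
    have h9 : ε * (2 * C) ≤ ε * (δ * x) := mul_le_mul_of_nonneg_left h6 hε.le
    linarith
  · -- a positive proportion
    obtain ⟨z, hz2, δ, C, hδ, hrate, hC⟩ := rate hROU K hK0 (1 / 2) (by norm_num)
    refine ⟨δ / 4, by positivity, ?_⟩
    obtain ⟨x0, hx0⟩ := exists_nat_ge (4 * C / δ)
    refine ⟨x0, fun x hx => ?_⟩
    have h1 : (Icc 1 x).filter (fun n => ∀ l : ℕ, l.Prime → l ∣ n → z < l) ⊆
        ((Icc 1 x).filter fun n => ∀ d : ℕ, d ∣ n → 1 < d → G d) ∪ Sz G z x := by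
      intro n hn
      obtain ⟨h2, h3⟩ := Finset.mem_filter.1 hn
      by_cases h4 : ∀ d : ℕ, d ∣ n → 1 < d → G d
      · exact Finset.mem_union_left _ (Finset.mem_filter.2 ⟨h2, h4⟩)
      · push Not at h4
        exact Finset.mem_union_right _ (rough_bad G z x n h2 h3 h4)
    have h2 : (((Icc 1 x).filter fun n => ∀ l : ℕ, l.Prime → l ∣ n → z < l).card : ℝ) ≤
        (((Icc 1 x).filter fun n => ∀ d : ℕ, d ∣ n → 1 < d → G d).card : ℝ) +
          ((Sz G z x).card : ℝ) := by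
      exact_mod_cast (Finset.card_le_card h1).trans (Finset.card_union_le _ _)
    have h3 := hC x
    have h4 := hK G hG z x hz2
    have h5 : K * (z : ℝ) ^ (-(2 / 5) : ℝ) * x ≤ 1 / 2 * δ * x :=
      mul_le_mul_of_nonneg_right hrate (Nat.cast_nonneg x)
    have h6 : C ≤ δ / 4 * x := by
      have h7 : 4 * C / δ ≤ x := hx0.trans (by exact_mod_cast hx)
      rw [div_le_iff₀ hδ] at h7
      linarith
    linarith

end Pool.Agent.Helper94.DN
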