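import Pool.Agent.Helper94.DN.All

/-!
# MP_2b6189_al: integral fusion categories of almost all dimensions

`CentreData` (`Pool.Agent.Helper94.YG.CentreData`, extending `Pool.Agent.Helper94.YF.CentreRep`) is the data of the Drinfeld
centre of an integral fusion category of dimension `n`.
-/

set_option autoImplicit false

namespace Pool.Agent.Helper94.DN.Final

open Pool.Agent.Helper94.YF Pool.Agent.Helper94.YG

/-- Every datum of dimension `n` has a nontrivial Tannakian subcategory: a set `D` of simple objects closed under duality and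
fusion, containing the unit and another object, on which all twists are `1` and the double braiding is trivial
(`n s_xy = d_x d_y`). -/
def Good (n : ℕ) : Prop := ∀ (I : Type) [Fintype I] [DecidableEq I] (Z : CentreData I), Z.n = n →
  ∃ D : I → Prop, D Z.o ∧ (∃ x, D x ∧ x ≠ Z.o) ∧ (∀ x, D x → D (Z.st x)) ∧
    (∀ x y z, D x → D y → Z.N x y z ≠ 0 → D z) ∧ (∀ x, D x → Z.th x = 1) ∧
    ∀ x y, D x → D y → (Z.n : ℂ) * Z.rho Sm x y = (Z.d x : ℂ) * Z.d y

open Classical in
/-- There is a constant `K` such that for all `z ≥ 1` and all `x` at most `K z ^ (-2/5) x` integers `1 ≤ n ≤ x` have a divisor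
`d` with a prime factor `q > z` which is not good.  In particular almost all `n` are good: for every `ε > 0` and all large `x`
at most `ε x` integers `1 ≤ n ≤ x` are not good. -/
theorem result :
    (∃ K : ℝ, ∀ z x : ℕ, 1 ≤ z → (((Finset.Icc 1 x).filter fun n =>
      ∃ d q : ℕ, d ∣ n ∧ q.Prime ∧ z < q ∧ q ∣ d ∧ ¬ Good d).card : ℝ) ≤
        K * (z : ℝ) ^ (-(2 / 5) : ℝ) * x) ∧
    ∀ ε : ℝ, 0 < ε → ∃ x₀ : ℕ, ∀ x : ℕ, x₀ ≤ x →
      (((Finset.Icc 1 x).filter fun n => ¬ Good n).card : ℝ) ≤ ε * x := by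
  obtain ⟨K, -, hK⟩ := Pool.Agent.Helper94.DN.countT
  exact ⟨⟨K, hK⟩, Pool.Agent.Helper94.DN.densT.one⟩

end Pool.Agent.Helper94.DN.Final
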